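import Pool.Agent.H34x.KG.Main

/-!
# Numbers with prescribed conductors approximate every point with the exponent `a + b + c - 1`

Let `K` be a number field and `a, b, c ∈ (0, 1]` with `a + b + c > 1`. The numbers `x ∈ K`,
`x ≠ 0, 1`, with `cond(x) ≤ a h(x)`, `cond(1/x) ≤ b h(x)`, `cond(x - 1) ≤ c h(x)` approximate every
point `ξ` of the product of the completions of `K` at the infinite places, none of the coordinates
of which is `0` or `1` or in `K`, with the exponent `a + b + c - 1`. For `a + b + c < 2` the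
coordinates may be in `K`; then the exponent is optimal if Vojta's conjecture with truncated
counting functions holds for the four points `0, 1, ∞, ξ`. For `a = b = c = 1` this is Dirichlet's
theorem.

The proof is elementary. Take primes `b₀, b₁, b₂` and let the powers of them that divide `q`, `p`
and `q - p` grow with the scale. Dirichlet's theorem gives vectors `(p, q)` of the lattices. If
those of consecutive scales were proportional from some point on, then `p / q` would be constant,
and `q` divisible by nearly the whole index of the lattice, which is impossible. So there are two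
independent vectors at infinitely many scales, and their determinant is a bounded multiple of the
index of the lattice. So a combination with bounded coefficients has a bounded common divisor.
-/

set_option autoImplicit false

namespace Pool.Agent.Results.MP_f5a5f7_nt.ExponentAtEveryPoint

open NumberField IsDedekindDomain

/-- the absolute logarithmic Weil height `h(x)` -/
noncomputable def height {K : Type} [Field K] [NumberField K] (x : K) : ℝ :=
  (1 / (Module.finrank ℚ K : ℝ)) *
    ((∑ w : InfinitePlace K, (w.mult : ℝ) * Real.log (max 1 (w x))) +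
      ∑ᶠ v : HeightOneSpectrum (RingOfIntegers K), Real.log (max 1 (FinitePlace.mk v x)))

/-- the conductor `cond(x)`: the sum of `log N(v) / [K : ℚ]` over the primes `v` at which `x` has a
positive valuation -/
noncomputable def cond {K : Type} [Field K] [NumberField K] (x : K) : ℝ :=
  (1 / (Module.finrank ℚ K : ℝ)) *
    (∑ᶠ v : HeightOneSpectrum (RingOfIntegers K),
      (if FinitePlace.mk v x < 1 then Real.log (Ideal.absNorm v.asIdeal : ℝ) else 0))

/-- no coordinate of the point `ξ` is `x` -/
def Avoids {K : Type} [Field K] [NumberField K] (ξ : mixedEmbedding.mixedSpace K) (x : K) : Prop :=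
  ∀ w : InfinitePlace K, mixedEmbedding.normAtPlace w (ξ - mixedEmbedding K x) ≠ 0

theorem avoids_iff {K : Type} [Field K] [NumberField K] (ξ : mixedEmbedding.mixedSpace K) (x : K) :
    Avoids ξ x ↔ mixedEmbedding.norm (ξ - mixedEmbedding K x) ≠ 0 :=
  mixedEmbedding.norm_ne_zero_iff.symm

/-- the version with constants -/
theorem exact : ∀ (K : Type) [Field K] [NumberField K] (y : K) (N : ℕ) (R : ℝ), 0 < N →
    ∃ C : ℝ, ∀ a b c : ℝ, 0 < a → 0 < b → 0 < c → a ≤ 1 → b ≤ 1 → c ≤ 1 → 1 < a + b + c →
      ∀ ξ : mixedEmbedding.mixedSpace K,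
        (∀ w : InfinitePlace K, mixedEmbedding.normAtPlace w ξ ≤ R) → Avoids ξ 0 → Avoids ξ 1 →
        ((∀ x : K, Avoids ξ x) ∨ a + b + c < 2) → ∀ B : ℝ,
        ∃ x : K, x ≠ 0 ∧ x ≠ 1 ∧ B ≤ height x ∧
          (∀ w : InfinitePlace K, mixedEmbedding.normAtPlace w (mixedEmbedding K x - ξ) ≤
            C * Real.exp (-(a + b + c - 1) * height x)) ∧
          (∀ v : HeightOneSpectrum (RingOfIntegers K), FinitePlace.mk v (N : K) < 1 →
            FinitePlace.mk v (x - y) ≤ FinitePlace.mk v (N : K)) ∧
          cond x ≤ a * height x + C ∧ cond x⁻¹ ≤ b * height x + C ∧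
          cond (x - 1) ≤ c * height x + C := by
  intro K _ _ y N R hN
  obtain ⟨C, hC⟩ := Pool.Agent.H34x.KG.main K y hN R
  refine ⟨C, ?_⟩
  intro a b c ha hb hc ha1 hb1 hc1 hs ξ hR h0 h1 h2 B
  have h3 : ∀ (P : Fin 3 → Prop), P 0 → P 1 → P 2 → ∀ i, P i := by
    intro P h0 h1 h2 i
    fin_cases i
    · exact h0
    · exact h1
    · exact h2
  have hsum : ∑ i, (![a, b, c] : Fin 3 → ℝ) i = a + b + c := by
    rw [Fin.sum_univ_three]
    rfl
  have key := hC ![a, b, c]
    (h3 (fun i => 0 < (![a, b, c] : Fin 3 → ℝ) i) ha hb hc)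
    (h3 (fun i => (![a, b, c] : Fin 3 → ℝ) i ≤ 1) ha1 hb1 hc1) (by rw [hsum]; exact hs) ξ hR
    (by
      have := (avoids_iff ξ 0).1 h0
      rwa [map_zero, sub_zero] at this)
    (by
      have := (avoids_iff ξ 1).1 h1
      rwa [map_one] at this)
    (by
      rcases h2 with h | h
      · exact Or.inl fun x => (avoids_iff ξ x).1 (h x)
      · right; rw [hsum]; exact h) B
  rw [hsum] at key
  exact key

/-- **Numbers with prescribed conductors approximate every point with the exponent
`a + b + c - 1`.** Let `K` be a number field, `a, b, c ∈ (0, 1]` and `1 < a + b + c`. Let `ξ` be a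
point of the product of the completions of `K` at the infinite places with no coordinate equal to
`0` or `1`, let `y ∈ K`, `N ≥ 1` and let `B` be real.
(1) If `τ < a + b + c - 1` and no coordinate of `ξ` is in `K` or `τ < 1`, then there is `x ∈ K`,
`x ≠ 0, 1`, with `h(x) ≥ B`, `|x - ξ|_w ≤ exp (- τ h(x))` for all infinite places `w`,
`|x - y|_v ≤ |N|_v` for all primes `v` dividing `N`, and `cond(x) ≤ a h(x)`, `cond(1/x) ≤ b h(x)`,
`cond(x - 1) ≤ c h(x)`.
(2) If no coordinate of `ξ` is in `K` or `a + b + c < 2`, then the same is true for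
`τ = a + b + c - 1` up to a constant `C` that depends only on `K`, `y`, `N` and a bound `R` for the
coordinates of `ξ`: `|x - ξ|_w ≤ C exp (- (a + b + c - 1) h(x))`, `cond(x) ≤ a h(x) + C`,
`cond(1/x) ≤ b h(x) + C`, `cond(x - 1) ≤ c h(x) + C`. -/
theorem result :
    (∀ (K : Type) [Field K] [NumberField K] (a b c τ : ℝ),
      0 < a → 0 < b → 0 < c → a ≤ 1 → b ≤ 1 → c ≤ 1 → 1 < a + b + c → τ < a + b + c - 1 →
      ∀ (ξ : mixedEmbedding.mixedSpace K) (y : K) (N : ℕ) (B : ℝ), 0 < N →
        Avoids ξ 0 → Avoids ξ 1 → ((∀ x : K, Avoids ξ x) ∨ τ < 1) →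
        ∃ x : K, x ≠ 0 ∧ x ≠ 1 ∧ B ≤ height x ∧
          (∀ w : InfinitePlace K, mixedEmbedding.normAtPlace w (mixedEmbedding K x - ξ) ≤
            Real.exp (-τ * height x)) ∧
          (∀ v : HeightOneSpectrum (RingOfIntegers K), FinitePlace.mk v (N : K) < 1 →
            FinitePlace.mk v (x - y) ≤ FinitePlace.mk v (N : K)) ∧
          cond x ≤ a * height x ∧ cond x⁻¹ ≤ b * height x ∧ cond (x - 1) ≤ c * height x) ∧
    (∀ (K : Type) [Field K] [NumberField K] (y : K) (N : ℕ) (R : ℝ), 0 < N →
      ∃ C : ℝ, ∀ a b c : ℝ, 0 < a → 0 < b → 0 < c → a ≤ 1 → b ≤ 1 → c ≤ 1 → 1 < a + b + c →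
        ∀ ξ : mixedEmbedding.mixedSpace K,
          (∀ w : InfinitePlace K, mixedEmbedding.normAtPlace w ξ ≤ R) → Avoids ξ 0 → Avoids ξ 1 →
          ((∀ x : K, Avoids ξ x) ∨ a + b + c < 2) → ∀ B : ℝ,
          ∃ x : K, x ≠ 0 ∧ x ≠ 1 ∧ B ≤ height x ∧
            (∀ w : InfinitePlace K, mixedEmbedding.normAtPlace w (mixedEmbedding K x - ξ) ≤
              C * Real.exp (-(a + b + c - 1) * height x)) ∧
            (∀ v : HeightOneSpectrum (RingOfIntegers K), FinitePlace.mk v (N : K) < 1 →
              FinitePlace.mk v (x - y) ≤ FinitePlace.mk v (N : K)) ∧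
            cond x ≤ a * height x + C ∧ cond x⁻¹ ≤ b * height x + C ∧
            cond (x - 1) ≤ c * height x + C) := by
  refine ⟨?_, exact⟩
  intro K _ _ a b c τ ha hb hc ha1 hb1 hc1 hs hτ ξ y N B hN h0 h1 h2
  -- the smaller sum
  obtain ⟨s', hs1, hs2, hs3, hs4⟩ : ∃ s' : ℝ, 1 < s' ∧ τ < s' - 1 ∧ s' < a + b + c ∧
      ((∀ x : K, Avoids ξ x) ∨ s' < 2) := by
    rcases h2 with h | h
    · obtain ⟨s', h3, h4⟩ := exists_between (max_lt hs (show τ + 1 < a + b + c by linarith))
      have h5 := (le_max_left 1 (τ + 1)).trans_lt h3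
      have h6 := (le_max_right 1 (τ + 1)).trans_lt h3
      exact ⟨s', h5, by linarith, h4, Or.inl h⟩
    · obtain ⟨s', h3, h4⟩ := exists_between (max_lt
        (lt_min hs (show (1 : ℝ) < 2 by norm_num))
        (lt_min (show τ + 1 < a + b + c by linarith) (show τ + 1 < 2 by linarith)))
      have h5 := (le_max_left 1 (τ + 1)).trans_lt h3
      have h6 := (le_max_right 1 (τ + 1)).trans_lt h3
      exact ⟨s', h5, by linarith, h4.trans_le (min_le_left _ _),
        Or.inr (h4.trans_le (min_le_right _ _))⟩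
  have hs0 : 0 < a + b + c := by linarith
  obtain ⟨l, hl⟩ : ∃ l : ℝ, l = s' / (a + b + c) := ⟨_, rfl⟩
  have hl0 : 0 < l := by rw [hl]; positivity
  have hl1 : l < 1 := by rw [hl, div_lt_one hs0]; exact hs3
  have hls : l * a + l * b + l * c = s' := by rw [hl]; field_simp
  obtain ⟨C, hC⟩ := exact K y N (∑ w : InfinitePlace K, mixedEmbedding.normAtPlace w ξ) hN
  obtain ⟨C', hC'⟩ : ∃ C' : ℝ, C' = max C 1 := ⟨_, rfl⟩
  have hC'1 : 1 ≤ C' := hC' ▸ le_max_right _ _
  have hCC' : C ≤ C' := hC' ▸ le_max_left _ _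
  have hC'0 : 0 < C' := by linarith
  -- the bound for the height
  obtain ⟨B', hB'⟩ : ∃ B' : ℝ, B' = max (max B 0) (max (Real.log C' / (s' - 1 - τ))
    (max (C' / ((1 - l) * a)) (max (C' / ((1 - l) * b)) (C' / ((1 - l) * c))))) := ⟨_, rfl⟩
  have hl2 : 0 < 1 - l := by linarith
  have b1 : B ≤ B' := by rw [hB']; exact (le_max_left _ _).trans (le_max_left _ _)
  have b2 : Real.log C' / (s' - 1 - τ) ≤ B' := by
    rw [hB']; exact (le_max_left _ _).trans (le_max_right _ _)
  have b3 : C' / ((1 - l) * a) ≤ B' := by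
    rw [hB']
    exact (le_max_left _ _).trans ((le_max_right _ _).trans (le_max_right _ _))
  have b4 : C' / ((1 - l) * b) ≤ B' := by
    rw [hB']
    exact (le_max_left _ _).trans ((le_max_right _ _).trans ((le_max_right _ _).trans
      (le_max_right _ _)))
  have b5 : C' / ((1 - l) * c) ≤ B' := by
    rw [hB']
    exact (le_max_right _ _).trans ((le_max_right _ _).trans ((le_max_right _ _).trans
      (le_max_right _ _)))
  obtain ⟨x, hx0, hx1, hxB, hxw, hxv, hc0, hc1', hc2⟩ := hC (l * a) (l * b) (l * c)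
    (by positivity) (by positivity) (by positivity) (by nlinarith) (by nlinarith) (by nlinarith)
    (by rw [hls]; exact hs1) ξ
    (fun w => Finset.single_le_sum (f := fun w => mixedEmbedding.normAtPlace w ξ)
      (fun w _ => mixedEmbedding.normAtPlace_nonneg _ _) (Finset.mem_univ w)) h0 h1
    (by rw [hls]; exact hs4) B'
  have key : ∀ r : ℝ, 0 < r → C' / ((1 - l) * r) ≤ B' → l * r * height x + C ≤ r * height x := by
    intro r hr hB
    have h3 : C' / ((1 - l) * r) ≤ height x := hB.trans hxB
    rw [div_le_iff₀ (by positivity)] at h3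
    nlinarith
  refine ⟨x, hx0, hx1, b1.trans hxB, fun w => (hxw w).trans ?_, hxv, hc0.trans (key a ha b3),
    hc1'.trans (key b hb b4), hc2.trans (key c hc b5)⟩
  rw [hls]
  have h3 : Real.log C' ≤ (s' - 1 - τ) * height x := by
    have h4 := b2.trans hxB
    rw [div_le_iff₀ (by linarith)] at h4
    linarith
  calc C * Real.exp (-(s' - 1) * height x) ≤ C' * Real.exp (-(s' - 1) * height x) := by gcongr
    _ = Real.exp (Real.log C' + -(s' - 1) * height x) := by
        rw [Real.exp_add, Real.exp_log hC'0]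
    _ ≤ Real.exp (-τ * height x) := by
        apply Real.exp_le_exp.2
        linarith

end Pool.Agent.Results.MP_f5a5f7_nt.ExponentAtEveryPoint
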