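import Pool.Agent.H65KF.Vio
import Pool.Agent.H65KF.Cnt
import Pool.Agent.H65KF.Sy

/-!
# The weak abc inequality over number fields near points: exact constants

Let `K` be a number field of degree `d` and `K_∞` the product of its completions at the infinite
places. We study the inequality `h(x) ≤ κ (cond(x) + cond(1/x) + cond(x - 1)) + C` for the numbers
`x ∈ K` with `|x - p|_w ≤ exp (- t h(x))` at all infinite places `w`, for a point `p` of `K_∞`.

For almost every `p` and all `1 < t < 2` the best `κ` is `1 / (1 + t)`, and the set of the limit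
points of `(cond(x), cond(1/x), cond(x - 1)) / h(x)` is exactly `z ≤ 1`, `z₀ + z₁ + z₂ ≥ 1 + t`. For
`2 < σ < 3` and `t > σ - 1` the points `p` with best constant `1 / σ` (and limit set
`z₀ + z₁ + z₂ ≥ σ`) form a set of Hausdorff dimension `d (σ - 1) / t` in every open set.

The upper bounds come from a count over number fields: at most `C B ^ (d (s - 1) + ε)` numbers `x` of
height `exp (h(x)) ≤ B` satisfy `cond(x) + cond(1/x) + cond(x - 1) ≤ s h(x)`, if `s ≥ 2`, and this is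
sharp (for `K = ℚ` this is a theorem of Kane). The lower bounds come from the numbers with prescribed
conductors near every point and from a version of the mass transference principle.
-/

set_option autoImplicit false

namespace Pool.Agent.Results.MP_f5a5f7_nt.LimitSetsNearPoints

open NumberField IsDedekindDomain MeasureTheory
open scoped Classical

/-- the absolute logarithmic Weil height `h(x)` -/
noncomputable def height {K : Type} [Field K] [NumberField K] (x : K) : ℝ :=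
  (1 / (Module.finrank ℚ K : ℝ)) *
    ((∑ w : InfinitePlace K, (w.mult : ℝ) * Real.log (max 1 (w x))) +
      ∑ᶠ v : HeightOneSpectrum (RingOfIntegers K), Real.log (max 1 (FinitePlace.mk v x)))

/-- the conductor `cond(x)`: the sum of `log N(v) / [K : ℚ]` over the primes `v` at which `x` has a
positive valuation -/
noncomputable def cond {K : Type} [Field K] [NumberField K] (x : K) : ℝ :=
  (1 / (Module.finrank ℚ K : ℝ)) *
    (∑ᶠ v : HeightOneSpectrum (RingOfIntegers K),
      (if FinitePlace.mk v x < 1 then Real.log (Ideal.absNorm v.asIdeal : ℝ) else 0))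

/-- `cond(x) + cond(1/x) + cond(x - 1)` -/
noncomputable def condSum {K : Type} [Field K] [NumberField K] (x : K) : ℝ :=
  cond x + cond x⁻¹ + cond (x - 1)

/-- `x ≠ 0, 1`, and `|x - p|_w ≤ exp (- t h(x))` for all infinite places `w` -/
def Near {K : Type} [Field K] [NumberField K] (t : ℝ) (p : mixedEmbedding.mixedSpace K)
    (x : K) : Prop :=
  x ≠ 0 ∧ x ≠ 1 ∧ ∀ w : InfinitePlace K,
    mixedEmbedding.normAtPlace w (mixedEmbedding K x - p) ≤ Real.exp (-t * height x)

/-- `|x - y|_v ≤ |N|_v` for all primes `v` dividing `N` -/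
def Cong {K : Type} [Field K] [NumberField K] (N : ℕ) (y x : K) : Prop :=
  ∀ v : HeightOneSpectrum (RingOfIntegers K), FinitePlace.mk v (N : K) < 1 →
    FinitePlace.mk v (x - y) ≤ FinitePlace.mk v (N : K)

/-- `z` is a limit of `(cond(x), cond(1/x), cond(x - 1)) / h(x)`, where `x` runs through elements of
`S` the heights of which tend to infinity -/
def LimitPoint {K : Type} [Field K] [NumberField K] (S : Set K) (z : Fin 3 → ℝ) : Prop :=
  ∀ ε : ℝ, 0 < ε → ∀ B : ℝ, ∃ x ∈ S, (|cond x - z 0 * height x| ≤ ε * height x ∧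
    |cond x⁻¹ - z 1 * height x| ≤ ε * height x ∧
    |cond (x - 1) - z 2 * height x| ≤ ε * height x) ∧ B ≤ height x

/-- the weak abc inequality with the constant `κ` for the numbers near `p` -/
def Holds {K : Type} [Field K] [NumberField K] (κ t : ℝ)
    (p : mixedEmbedding.mixedSpace K) : Prop :=
  ∃ C : ℝ, ∀ x : K, Near t p x → height x ≤ κ * condSum x + C

/-- For all `y ∈ K` and `N ≥ 1` the limit points of `(cond(x), cond(1/x), cond(x - 1)) / h(x)`, for
the numbers `x` near `p` congruent to `y` modulo `N`, are exactly the `z` with `z ≤ 1` and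
`z₀ + z₁ + z₂ ≥ σ`; the weak abc inequality near `p` holds with all constants `κ > 1 / σ`, and with
no constant `κ < 1 / σ`, even for the numbers congruent to `y` modulo `N`. -/
def Exact {K : Type} [Field K] [NumberField K] (σ t : ℝ)
    (p : mixedEmbedding.mixedSpace K) : Prop :=
  (∀ (y : K) (N : ℕ), 0 < N → ∀ z : Fin 3 → ℝ, LimitPoint {x | Near t p x ∧ Cong N y x} z ↔
    (∀ i, z i ≤ 1) ∧ σ ≤ z 0 + z 1 + z 2) ∧
  (∀ κ : ℝ, 1 / σ < κ → Holds κ t p) ∧
  (∀ κ : ℝ, κ < 1 / σ → ∀ (y : K) (N : ℕ), 0 < N → ∀ C : ℝ, ∃ x : K, Near t p x ∧ Cong N y x ∧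
    κ * condSum x + C < height x)

/-- **The weak abc inequality near points: exact constants, limit sets and dimensions.** Let `K` be
a number field of degree `d`.
(1) For `s > 0` and `ε > 0` the number of `x ∈ K`, `x ≠ 0, 1`, with `exp (h(x)) ≤ B` and
`cond(x) + cond(1/x) + cond(x - 1) ≤ s h(x)` is at most `C B ^ (d max (1, s - 1) + ε)`.
(2) For `a, b, c ∈ (0, 1]` let `N(B)` be the number of the `x ∈ K`, `x ≠ 0, 1`, with
`exp (h(x)) ≤ B`, `cond(x) ≤ a h(x)`, `cond(1/x) ≤ b h(x)` and `cond(x - 1) ≤ c h(x)`. If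
`a + b + c ≥ 2` and `ε > 0`, then `N(B) ≥ B ^ (d (a + b + c - 1) - ε)` for all large `B`. If
`a + b + c > 1` and `e < d (a + b + c - 1)`, then `N(B)` is not `O(B ^ e)`.
(3) For almost every `p` in the product `K_∞` of the completions at the infinite places, and all
`t > 1`: the weak abc inequality near `p` holds with all `κ > 1 / (1 + t)`, and `Exact (1 + t) t p`
if `t < 2`.
(4) For `2 < σ < 3`, `t > σ - 1` and all nonempty open `U` in `K_∞`, the points `p ∈ U` with
`Exact σ t p` have Hausdorff dimension `d (σ - 1) / t`.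
(5) For `1/3 < κ < 1/2`, `t > 1/κ - 1` and all nonempty open `U`, the points `p ∈ U` near which
the weak abc inequality holds with all constants `> κ` and with no constant `< κ` have
Hausdorff dimension `d (1/κ - 1) / t`.
(6) For `1/3 ≤ κ < 1`, `t > 0` and all nonempty open `U`, the points `p ∈ U` near which the weak abc
inequality with constant `κ` fails have Hausdorff dimension at least `min (d, d (1/κ - 1) / t)`, with
equality if `κ ≤ 1/2`.
(7) For `z ≤ 1` with `z₀ + z₁ + z₂ ≥ 2`, `t > 0`, `y ∈ K`, `N ≥ 1` and all nonempty open `U`, the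
points `p ∈ U` for which `z` is a limit point of `(cond(x), cond(1/x), cond(x - 1)) / h(x)` for the
numbers near `p` congruent to `y` modulo `N` have Hausdorff dimension
`min (d, d (z₀ + z₁ + z₂ - 1) / t)`. -/
theorem result : ∀ (K : Type) [Field K] [NumberField K],
    (∀ s : ℝ, 0 < s → ∀ ε : ℝ, 0 < ε → ∃ C : ℝ, ∀ B : ℝ, 1 ≤ B →
      {x : K | (x ≠ 0 ∧ x ≠ 1 ∧ condSum x ≤ s * height x) ∧ Real.exp (height x) ≤ B}.Finite ∧
      (({x : K | (x ≠ 0 ∧ x ≠ 1 ∧ condSum x ≤ s * height x) ∧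
        Real.exp (height x) ≤ B}.ncard : ℕ) : ℝ) ≤
          C * B ^ ((Module.finrank ℚ K : ℝ) * max 1 (s - 1) + ε)) ∧
    (∀ a b c : ℝ, 0 < a → 0 < b → 0 < c → a ≤ 1 → b ≤ 1 → c ≤ 1 →
      (2 ≤ a + b + c → ∀ ε : ℝ, 0 < ε → ∃ B₀ : ℝ, ∀ B : ℝ, B₀ ≤ B →
        B ^ ((Module.finrank ℚ K : ℝ) * (a + b + c - 1) - ε) ≤
        (({x : K | (x ≠ 0 ∧ x ≠ 1 ∧ cond x ≤ a * height x ∧ cond x⁻¹ ≤ b * height x ∧
          cond (x - 1) ≤ c * height x) ∧ Real.exp (height x) ≤ B}.ncard : ℕ) : ℝ)) ∧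
      (1 < a + b + c → ∀ e : ℝ, e < (Module.finrank ℚ K : ℝ) * (a + b + c - 1) →
        ¬ ∃ C : ℝ, ∀ B : ℝ, 1 ≤ B →
        (({x : K | (x ≠ 0 ∧ x ≠ 1 ∧ cond x ≤ a * height x ∧ cond x⁻¹ ≤ b * height x ∧
          cond (x - 1) ≤ c * height x) ∧ Real.exp (height x) ≤ B}.ncard : ℕ) : ℝ) ≤
            C * B ^ e)) ∧
    (∀ᵐ p : mixedEmbedding.mixedSpace K, ∀ t : ℝ, 1 < t →
      (∀ κ : ℝ, 1 / (1 + t) < κ → Holds κ t p) ∧ (t < 2 → Exact (1 + t) t p)) ∧
    (∀ σ t : ℝ, 2 < σ → σ < 3 → σ - 1 < t → ∀ U : Set (mixedEmbedding.mixedSpace K), IsOpen U →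
      U.Nonempty → dimH ({p | Exact σ t p} ∩ U) =
        ENNReal.ofReal ((Module.finrank ℚ K : ℝ) * (σ - 1) / t)) ∧
    (∀ κ t : ℝ, 1 / 3 < κ → κ < 1 / 2 → 1 / κ - 1 < t →
      ∀ U : Set (mixedEmbedding.mixedSpace K), IsOpen U → U.Nonempty →
      dimH ({p | (∀ κ' : ℝ, κ < κ' → Holds κ' t p) ∧ ∀ κ' : ℝ, κ' < κ → ¬ Holds κ' t p} ∩ U) =
        ENNReal.ofReal ((Module.finrank ℚ K : ℝ) * (1 / κ - 1) / t)) ∧
    (∀ κ t : ℝ, 1 / 3 ≤ κ → κ < 1 → 0 < t →
      ∀ U : Set (mixedEmbedding.mixedSpace K), IsOpen U → U.Nonempty →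
      ENNReal.ofReal (min (Module.finrank ℚ K : ℝ)
        ((Module.finrank ℚ K : ℝ) * (1 / κ - 1) / t)) ≤ dimH ({p | ¬ Holds κ t p} ∩ U) ∧
      (κ ≤ 1 / 2 → dimH ({p | ¬ Holds κ t p} ∩ U) = ENNReal.ofReal
        (min (Module.finrank ℚ K : ℝ) ((Module.finrank ℚ K : ℝ) * (1 / κ - 1) / t)))) ∧
    (∀ z : Fin 3 → ℝ, (∀ i, z i ≤ 1) → 2 ≤ z 0 + z 1 + z 2 → ∀ t : ℝ, 0 < t →
      ∀ (y : K) (N : ℕ), 0 < N → ∀ U : Set (mixedEmbedding.mixedSpace K), IsOpen U → U.Nonempty →
      dimH ({p | LimitPoint {x | Near t p x ∧ Cong N y x} z} ∩ U) =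
        ENNReal.ofReal (min (Module.finrank ℚ K : ℝ)
          ((Module.finrank ℚ K : ℝ) * (z 0 + z 1 + z 2 - 1) / t))) := by
  intro K _ _
  refine ⟨fun s hs ε hε => Pool.Agent.H65KF.count s hs ε hε, ?_, ?_, ?_, ?_, ?_, ?_⟩
  · intro a b c ha hb hc ha1 hb1 hc1
    exact ⟨fun hs ε hε => Pool.Agent.H65KF.count_lower a b c ε ha hb hc ha1 hb1 hc1 hs hε,
      fun hs e he => Pool.Agent.H65KF.count_sharp a b c e ha hb hc ha1 hb1 hc1 hs he⟩
  · filter_upwards [Pool.Agent.H65KF.ae_qx (K := K)] with p hp t ht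
    exact ⟨(hp t ht).2, (hp t ht).1⟩
  · intro σ t h1 h2 h3 U hU hU2
    exact Pool.Agent.H65KF.dim_qx σ t h1 h2 h3 U hU hU2
  · intro κ t h1 h2 h3 U hU hU2
    rw [← Pool.Agent.H65KF.dim_best κ h1 h2 t h3 U hU hU2]
    congr 2
    ext p
    refine and_congr Iff.rfl (forall_congr' fun κ' => forall_congr' fun _ => ?_)
    unfold Holds
    push Not
    exact Iff.rfl
  · intro κ t h1 h2 h3 U hU hU2
    have key : {p : mixedEmbedding.mixedSpace K | ¬ Holds κ t p} =
        {p | Pool.Agent.H65KF.Vio κ t 1 (0 : K) p} := by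
      ext p
      rw [Set.mem_ofPred_eq, Set.mem_ofPred_eq]
      unfold Holds
      push Not
      refine forall_congr' fun C => exists_congr fun x => and_congr Iff.rfl ?_
      refine ⟨fun h => ⟨fun v hv => ?_, h⟩, fun h => h.2⟩
      rw [Nat.cast_one, map_one] at hv
      exact absurd hv (lt_irrefl _)
    rw [key]
    exact Pool.Agent.H65KF.dim_vio' κ h1 h2 t h3 (0 : K) 1 one_pos U hU hU2
  · intro z hz1 hz t ht y N hN U hU hU2
    exact Pool.Agent.H65KF.dim_lp z hz1 hz t ht y N hN U hU hU2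

end Pool.Agent.Results.MP_f5a5f7_nt.LimitSetsNearPoints
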