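import Mathlib
import Pool.Agent.Seat74.TN.ClsCount
import Pool.Agent.H34x.KF.Ht

/-!
# The weak abc inequality over all number fields of bounded degree, outside a thin set of primes

For every `ε > 0` there is ONE set `E` of rational primes, with at most `X ^ ε` elements up to `X` for
all `X ≥ 1`, such that for all `P`, `κ`, `B` and `A` there are `R`, `M` and `δ > 0` with the following
property. Let `K` be ANY number field of degree at most `κ` (its discriminant is not bounded), let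
`p 1, …, p P` be different primes not in `E` with `Y ≤ p j ^ A`, let `y 1, …, y P ∈ K` be numbers of absolute
height at most `Y` the norm of each of which is up to the sign a power of `p j` (for instance `y j = p j`,
or a generator of a prime ideal above `p j`), and let `x ∈ K`, `x ≠ 0, 1`, be such that

  `x = s * ∏ j, y j ^ f j`,   `1 - x = s' * (∏ j, y j ^ e j) * z ^ r`

with `s`, `s'` in `K` of absolute height at most `Y ^ B`, any integral exponents `f j`, `e j` of absolute
value at most `Y ^ δ`, any `z` in `K` and `R ≤ r ≤ Y ^ δ`. Then the absolute height of `x` is at most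
`Y ^ M`, and if `x` or `1 - x` is not prime to all the `p j`, the weak abc inequality of the problem,
`h(x) ≤ M (cond(x) + cond(1/x) + cond(x - 1) + 1)`, holds. A priori the height of `x` can be
exponential in `Y ^ δ`.

So the weak abc inequality, with a constant which depends on `P`, `κ`, `B`, `A` and `ε` only, holds over
all number fields of bounded degree for ALL these `x` outside a thin set of primes, which does not
depend on `P`, `κ`, `B`, `A` and the fields.

The proof: by the starting theorem `FewClassesAllFields` these `x` belong to at most `Y ^ ε'` classes,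
the quotients of two members of a class being of height at most `Y ^ C`. If two members of a class
are defined over the fields `K₁`, `K₂`, the norm of their quotient from `K₁ K₂` to `ℚ` is a rational number of
polynomial height, and so a prime `p` with a large exponent in the one occurs in the other as well.
Hence at most `P` primes have large exponents in the members of a class.
-/

set_option autoImplicit false

namespace Pool.Agent.Results.MP_f5a5f7_nt.PrimesOutsideAThinSet

open NumberField Height Module IsDedekindDomain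
open Pool.Agent.Seat74.TN (Inst)

/-- the absolute logarithmic Weil height `h(x)`, as in the problem -/
noncomputable def height {K : Type} [Field K] [NumberField K] (x : K) : ℝ :=
  (1 / (Module.finrank ℚ K : ℝ)) *
    ((∑ w : InfinitePlace K, (w.mult : ℝ) * Real.log (max 1 (w x))) +
      ∑ᶠ v : HeightOneSpectrum (𝓞 K), Real.log (max 1 (FinitePlace.mk v x)))

/-- the conductor `cond(x)`, as in the problem: the sum of `log N(v) / d` over the primes `v` at
which `x` has a positive valuation -/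
noncomputable def cond {K : Type} [Field K] [NumberField K] (x : K) : ℝ :=
  (1 / (Module.finrank ℚ K : ℝ)) *
    (∑ᶠ v : HeightOneSpectrum (𝓞 K),
      (if FinitePlace.mk v x < 1 then Real.log (Ideal.absNorm v.asIdeal : ℝ) else 0))

section

variable {K : Type} [Field K] [NumberField K]

lemma height_eq (x : K) : (finrank ℚ K : ℝ) * height x = logHeight₁ x :=
  Pool.Agent.H34x.KF.height_eq x

lemma cond_nonneg (x : K) : 0 ≤ cond x := by
  unfold cond
  refine mul_nonneg (by positivity) (finsum_nonneg fun v => ?_)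
  split_ifs
  · exact Real.log_natCast_nonneg _
  · exact le_rfl

lemma small_finite {x : K} (hx : x ≠ 0) :
    {v : HeightOneSpectrum (𝓞 K) | FinitePlace.mk v x < 1}.Finite := by
  have h := FinitePlace.hasFiniteMulSupport hx
  have h2 : {w : FinitePlace K | w x < 1}.Finite := by
    apply Set.Finite.subset h
    intro w hw
    rw [Function.mem_mulSupport]
    exact (ne_of_lt hw)
  exact h2.preimage (f := fun v : HeightOneSpectrum (𝓞 K) => FinitePlace.mk v)
    (fun a _ b _ hab => FinitePlace.mk_eq_iff.1 hab)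

/-- a prime above `p` contributes at least `log p / d` to the conductor -/
lemma le_cond {x : K} (hx : x ≠ 0) (v : HeightOneSpectrum (𝓞 K)) (p : ℕ) (hp : p.Prime)
    (hv : (p : 𝓞 K) ∈ v.asIdeal) (hvx : FinitePlace.mk v x < 1) :
    Real.log p ≤ finrank ℚ K * cond x := by
  have hd : (0 : ℝ) < finrank ℚ K := by exact_mod_cast (finrank_pos (R := ℚ) (M := K))
  have h1 : finrank ℚ K * cond x = ∑ᶠ v : HeightOneSpectrum (𝓞 K),
      (if FinitePlace.mk v x < 1 then Real.log (Ideal.absNorm v.asIdeal : ℝ) else 0) := by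
    unfold cond
    rw [← mul_assoc, mul_one_div_cancel hd.ne', one_mul]
  have hN : p ≤ Ideal.absNorm v.asIdeal := by
    have h2 : Ideal.absNorm v.asIdeal ∣ p ^ finrank ℤ (𝓞 K) := by
      have h3 := Ideal.absNorm_dvd_absNorm_of_le
        ((Ideal.span_singleton_le_iff_mem v.asIdeal).2 hv)
      rw [Ideal.absNorm_span_singleton] at h3
      have h4 : Algebra.norm ℤ (p : 𝓞 K) = (p : ℤ) ^ finrank ℤ (𝓞 K) := by
        have := Algebra.norm_algebraMap (S := 𝓞 K) (p : ℤ)
        simpa using this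
      rw [h4, Int.natAbs_pow, Int.natAbs_natCast] at h3
      exact h3
    obtain ⟨k, -, hk⟩ := (Nat.dvd_prime_pow hp).1 h2
    have hk0 : k ≠ 0 := by
      rintro rfl
      rw [pow_zero, Ideal.absNorm_eq_one_iff] at hk
      exact v.isPrime.ne_top hk
    rw [hk]
    exact Nat.le_self_pow hk0 p
  rw [h1, finsum_eq_sum_of_support_subset (s := (small_finite hx).toFinset) _ (by
    intro w hw
    rw [Function.mem_support] at hw
    rw [Finset.mem_coe, Set.Finite.mem_toFinset]
    by_contra h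
    exact hw (if_neg h))]
  have hvm : v ∈ (small_finite hx).toFinset := by
    rw [Set.Finite.mem_toFinset]; exact hvx
  refine le_trans ?_ (Finset.single_le_sum (f := fun v : HeightOneSpectrum (𝓞 K) =>
    (if FinitePlace.mk v x < 1 then Real.log (Ideal.absNorm v.asIdeal : ℝ) else 0))
    (fun w _ => ?_) hvm)
  · simp only [if_pos hvx]
    exact Real.log_le_log (by exact_mod_cast hp.pos) (by exact_mod_cast hN)
  · split_ifs
    · exact Real.log_natCast_nonneg _
    · exact le_rfl

end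

/-- **The weak abc inequality over all number fields, outside a thin set of primes.** For every
`ε > 0` there is a set `E` of primes with at most `X ^ ε` elements up to `X`, for all `X ≥ 1`, such that
for all `P`, `κ`, `B`, `A` there are `R`, `M` and `δ > 0` with: for all real `Y ≥ 1`, all number fields `K` and all
`x ∈ K` as in `Inst P κ B R δ Y K x p y s f`,

(1) the exponent `f j` is at most `M` in absolute value if `p j ∉ E` and `Y ≤ p j ^ A`;

(2) if this holds for all `j`, the absolute height of `x` is at most `Y ^ M`;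

(3) if moreover `|x| ≠ 1` or `|x - 1| < 1` at some prime `v` of `K` above one of the `p j`, then
`h(x) ≤ M (cond(x) + cond(1/x) + cond(x - 1) + 1)`. -/
theorem result (ε : ℝ) (hε : 0 < ε) : ∃ E : Set ℕ, (∀ q ∈ E, q.Prime) ∧
    (∀ X : ℝ, 1 ≤ X → {q ∈ E | (q : ℝ) ≤ X}.Finite ∧
      (({q ∈ E | (q : ℝ) ≤ X}.ncard : ℕ) : ℝ) ≤ X ^ ε) ∧
    ∀ P κ B A : ℕ, ∃ (R M : ℕ) (δ : ℝ), 0 < δ ∧
      ∀ (Y : ℝ) (K : Type) [Field K] [NumberField K] (x : K) (p : Fin P → ℕ) (y : Fin P → K)
        (s : K) (f : Fin P → ℤ), 1 ≤ Y → Inst P κ B R δ Y K x p y s f →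
        (∀ j, p j ∉ E → Y ≤ (p j : ℝ) ^ A → |(f j : ℝ)| ≤ M) ∧
        ((∀ j, p j ∉ E ∧ Y ≤ (p j : ℝ) ^ A) → mulHeight₁ x ≤ (Y ^ M) ^ finrank ℚ K ∧
          ∀ (j : Fin P) (v : HeightOneSpectrum (𝓞 K)), (p j : 𝓞 K) ∈ v.asIdeal →
            (FinitePlace.mk v x ≠ 1 ∨ FinitePlace.mk v (x - 1) < 1) →
            height x ≤ M * (cond x + cond x⁻¹ + cond (x - 1) + 1)) := by
  classical
  have hcb := fun P κ B A : ℕ => Seat74.TN.count_badP P (κ + 1) B A (Nat.le_add_left _ _) (ε / 2)
    (by positivity)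
  choose R M δ hδ hC using hcb
  obtain ⟨T, hT⟩ := Seat74.TN.thin_union ε hε
    (fun j => Seat74.TN.BadP j.unpair.1 (j.unpair.2.unpair.1 + 1) j.unpair.2.unpair.2.unpair.1
      j.unpair.2.unpair.2.unpair.2
      (R j.unpair.1 j.unpair.2.unpair.1 j.unpair.2.unpair.2.unpair.1 j.unpair.2.unpair.2.unpair.2)
      (M j.unpair.1 j.unpair.2.unpair.1 j.unpair.2.unpair.2.unpair.1 j.unpair.2.unpair.2.unpair.2)
      (δ j.unpair.1 j.unpair.2.unpair.1 j.unpair.2.unpair.2.unpair.1 j.unpair.2.unpair.2.unpair.2))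
      (fun j => hC _ _ _ _)
  obtain ⟨E, hE⟩ : ∃ E : Set ℕ, E = {x : ℕ | ∃ j : ℕ, x ∈ Seat74.TN.BadP j.unpair.1
      (j.unpair.2.unpair.1 + 1) j.unpair.2.unpair.2.unpair.1 j.unpair.2.unpair.2.unpair.2
      (R j.unpair.1 j.unpair.2.unpair.1 j.unpair.2.unpair.2.unpair.1 j.unpair.2.unpair.2.unpair.2)
      (M j.unpair.1 j.unpair.2.unpair.1 j.unpair.2.unpair.2.unpair.1 j.unpair.2.unpair.2.unpair.2)
      (δ j.unpair.1 j.unpair.2.unpair.1 j.unpair.2.unpair.2.unpair.1 j.unpair.2.unpair.2.unpair.2)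
      ∧ T j ≤ x} := ⟨_, rfl⟩
  have hEp : ∀ q ∈ E, q.Prime := by
    rw [hE]
    rintro q ⟨j, hj, -⟩
    exact hj.1
  have hEc : ∀ X : ℝ, 1 ≤ X → {x ∈ E | (x : ℝ) ≤ X}.Finite ∧
      (({x ∈ E | (x : ℝ) ≤ X}.ncard : ℕ) : ℝ) ≤ X ^ ε := by
    intro X hX
    rw [hE]
    exact hT X hX
  refine ⟨E, hEp, hEc, fun P κ B A => ?_⟩
  obtain ⟨j₀, hj₀⟩ : ∃ j, j = Nat.pair P (Nat.pair κ (Nat.pair B A)) := ⟨_, rfl⟩
  have hu1 : (Nat.unpair j₀).1 = P := by rw [hj₀, Nat.unpair_pair]
  have hu2 : (Nat.unpair (Nat.unpair j₀).2).1 = κ := by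
    rw [hj₀, Nat.unpair_pair]; simp
  have hu3 : (Nat.unpair (Nat.unpair (Nat.unpair j₀).2).2).1 = B := by
    rw [hj₀, Nat.unpair_pair]; simp
  have hu4 : (Nat.unpair (Nat.unpair (Nat.unpair j₀).2).2).2 = A := by
    rw [hj₀, Nat.unpair_pair]; simp
  have hBadE : ∀ x : ℕ, x ∈ Seat74.TN.BadP P (κ + 1) B A (R P κ B A) (M P κ B A) (δ P κ B A) →
      T j₀ ≤ x → x ∈ E := by
    intro x hx hTx
    rw [hE]
    refine ⟨j₀, ?_, hTx⟩
    rw [hu1, hu2, hu3, hu4]
    exact hx
  obtain ⟨M₁, hM₁⟩ := exists_nat_ge (((T j₀ : ℝ) ^ A) ^ δ P κ B A)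
  obtain ⟨M₂, hM₂⟩ : ∃ M₂, M₂ = max (M P κ B A) M₁ := ⟨_, rfl⟩
  obtain ⟨M₃, hM₃⟩ : ∃ M₃, M₃ = B + P * M₂ + M₂ := ⟨_, rfl⟩
  obtain ⟨M₄, hM₄⟩ : ∃ M₄, M₄ = M₃ * (A * κ + 1) := ⟨_, rfl⟩
  have hM₃₄ : M₃ ≤ M₄ := by
    rw [hM₄]; exact Nat.le_mul_of_pos_right _ (Nat.succ_pos _)
  refine ⟨R P κ B A, M₄, δ P κ B A, hδ P κ B A, ?_⟩
  intro Y K _ _ x p y s f hY h
  have key : ∀ j, p j ∉ E → Y ≤ (p j : ℝ) ^ A → |(f j : ℝ)| ≤ M₂ := by
    intro j hjE hjA
    by_contra hcon
    rw [not_le, hM₂] at hcon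
    push_cast at hcon
    have h1 : (M P κ B A : ℝ) < |(f j : ℝ)| := lt_of_le_of_lt (le_max_left _ _) hcon
    have h2 : (M₁ : ℝ) < |(f j : ℝ)| := lt_of_le_of_lt (le_max_right _ _) hcon
    have h3 : Inst P (κ + 1) B (R P κ B A) (δ P κ B A) ((p j : ℝ) ^ A) K x p y s f := by
      have h4 := h.mono (hδ P κ B A).le hY hjA
      exact ⟨h4.1.trans (Nat.le_succ κ), h4.2⟩
    by_cases hTx : T j₀ ≤ p j
    · exact hjE (hBadE _ ⟨h.2.2.2.1 j, K, inferInstance, inferInstance, x, p, y, s, f, j, h3, rfl,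
        h1⟩ hTx)
    · have h5 : |(f j : ℝ)| ≤ Y ^ δ P κ B A := by
        obtain ⟨-, -, -, -, -, -, -, -, h9, -⟩ := h
        exact h9 j
      have h6 : Y ^ δ P κ B A ≤ ((T j₀ : ℝ) ^ A) ^ δ P κ B A := by
        refine Real.rpow_le_rpow (by linarith) (hjA.trans ?_) (hδ P κ B A).le
        exact pow_le_pow_left₀ (by positivity) (by exact_mod_cast (not_le.1 hTx).le) A
      linarith
  have hM₂₄ : (M₂ : ℝ) ≤ M₄ := by
    have : M₂ ≤ M₃ := by rw [hM₃]; exact Nat.le_add_left _ _
    exact_mod_cast this.trans hM₃₄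
  refine ⟨fun j h1 h2 => (key j h1 h2).trans hM₂₄, fun hall => ?_⟩
  obtain ⟨h1, h2, h3, h4, h5, h6, h7, h8, h9, h10, -⟩ := h
  have hd : ∀ j, (f j).natAbs ≤ M₂ := by
    intro j
    have h11 := key j (hall j).1 (hall j).2
    have h12 : (((f j).natAbs : ℕ) : ℝ) = |(f j : ℝ)| := by
      rw [← Int.cast_abs, Int.abs_eq_natAbs]; simp
    rw [← h12] at h11
    exact_mod_cast h11
  have hYf : ∀ n : ℕ, (1 : ℝ) ≤ Y ^ n := fun n => one_le_pow₀ hY
  have hmain : mulHeight₁ x ≤ (Y ^ M₃) ^ finrank ℚ K := by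
    rw [h10]
    calc mulHeight₁ (s * ∏ j, y j ^ f j) ≤ mulHeight₁ s * mulHeight₁ (∏ j, y j ^ f j) :=
          mulHeight₁_mul_le _ _
      _ ≤ (Y ^ B) ^ finrank ℚ K * ∏ j : Fin P, (Y ^ finrank ℚ K) ^ M₂ := by
          refine mul_le_mul h8 ?_ (mulHeight₁_pos _).le (by positivity)
          refine (mulHeight₁_prod_le _ _).trans (Finset.prod_le_prod
            (fun j _ => (mulHeight₁_pos _).le) fun j _ => ?_)
          rw [mulHeight₁_zpow]
          exact (pow_le_pow_left₀ (mulHeight₁_pos _).le (h7 j) _).trans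
            (pow_le_pow_right₀ (hYf _) (hd j))
      _ = (Y ^ (B + P * M₂)) ^ finrank ℚ K := by
          rw [Finset.prod_const, Finset.card_univ, Fintype.card_fin]
          ring
      _ ≤ (Y ^ M₃) ^ finrank ℚ K := by
          rw [hM₃]
          exact pow_le_pow_left₀ (by positivity) (pow_le_pow_right₀ hY (Nat.le_add_right _ _)) _
  refine ⟨hmain.trans (pow_le_pow_left₀ (by positivity) (pow_le_pow_right₀ hY hM₃₄) _), ?_⟩
  intro j v hv hvx
  have hf : (0 : ℝ) < finrank ℚ K := by exact_mod_cast (finrank_pos (R := ℚ) (M := K))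
  -- the conductor is at least `log p / d`
  obtain ⟨S, hS⟩ : ∃ S, S = cond x + cond x⁻¹ + cond (x - 1) := ⟨_, rfl⟩
  have hc1 := cond_nonneg x
  have hc2 := cond_nonneg x⁻¹
  have hc3 := cond_nonneg (x - 1)
  have hS0 : 0 ≤ S := by rw [hS]; linarith
  have hlog : Real.log (p j) ≤ finrank ℚ K * S := by
    have hx1 : x - 1 ≠ 0 := sub_ne_zero.2 h3
    rw [hS]
    rcases hvx with hne | hlt
    · rcases lt_or_gt_of_ne hne with hlt | hgt
      · have := le_cond h2 v (p j) (h4 j) hv hlt
        nlinarith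
      · have hinv : FinitePlace.mk v x⁻¹ < 1 := by
          rw [map_inv₀]
          exact inv_lt_one_of_one_lt₀ hgt
        have := le_cond (inv_ne_zero h2) v (p j) (h4 j) hv hinv
        nlinarith
    · have := le_cond hx1 v (p j) (h4 j) hv hlt
      nlinarith
  have hlogY : Real.log Y ≤ A * Real.log (p j) := by
    have := Real.log_le_log (by linarith) (hall j).2
    rwa [Real.log_pow] at this
  have hh1 : (finrank ℚ K : ℝ) * height x ≤ finrank ℚ K * (M₃ * Real.log Y) := by
    rw [height_eq, logHeight₁_eq_log_mulHeight₁]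
    refine (Real.log_le_log (mulHeight₁_pos x) hmain).trans (le_of_eq ?_)
    rw [Real.log_pow, Real.log_pow]
  have hh2 : height x ≤ M₃ * Real.log Y := le_of_mul_le_mul_left hh1 hf
  have hκ : (finrank ℚ K : ℝ) ≤ κ := by exact_mod_cast h1
  have hb1 : (finrank ℚ K : ℝ) * S ≤ κ * S := mul_le_mul_of_nonneg_right hκ hS0
  have hb2 : (A : ℝ) * Real.log (p j) ≤ A * (κ * S) :=
    mul_le_mul_of_nonneg_left (hlog.trans hb1) (Nat.cast_nonneg _)
  have hb3 : (M₃ : ℝ) * Real.log Y ≤ M₃ * (A * (κ * S)) :=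
    mul_le_mul_of_nonneg_left (hlogY.trans hb2) (Nat.cast_nonneg _)
  refine (hh2.trans hb3).trans ?_
  rw [← hS, hM₄]
  push_cast
  have hb4 : (0 : ℝ) ≤ (M₃ : ℝ) * S := by positivity
  have hb5 : (0 : ℝ) ≤ (M₃ : ℝ) * (A * κ) := by positivity
  have hb6 : (0 : ℝ) ≤ (M₃ : ℝ) := Nat.cast_nonneg _
  nlinarith

end Pool.Agent.Results.MP_f5a5f7_nt.PrimesOutsideAThinSet
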