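import Pool.Agent.H34x.KF.Main

/-!
# Weak approximation with prescribed conductors

Let `K` be a number field and `a, b, c ∈ (0, 1]`. The numbers `x ∈ K`, `x ≠ 0, 1`, with
`cond(x) ≤ a h(x)`, `cond(1/x) ≤ b h(x)`, `cond(x - 1) ≤ c h(x)` are expected to be finite in
number if `a + b + c < 1`: this is the strong form of the weak abc inequality. We show that
for `a + b + c > 1` there are infinitely many of them near every point: they are dense in the
product of the completions of `K` at any finite set of places, and at the infinite places every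
point is approximated by them with any exponent `τ < min (a, b, c, (a + b + c - 1) / 2)`. So the
inequality `h(x) ≤ κ (cond(x) + cond(1/x) + cond(x - 1) + C)` fails for every `κ < 1` and `C` on
every nonempty open set, and this for all shapes of the three conductors.
-/

set_option autoImplicit false

namespace Pool.Agent.Results.MP_f5a5f7_nt.WeakApproximation

open NumberField IsDedekindDomain

/-- the absolute logarithmic Weil height `h(x)` -/
noncomputable def height {K : Type} [Field K] [NumberField K] (x : K) : ℝ :=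
  (1 / (Module.finrank ℚ K : ℝ)) *
    ((∑ w : InfinitePlace K, (w.mult : ℝ) * Real.log (max 1 (w x))) +
      ∑ᶠ v : HeightOneSpectrum (RingOfIntegers K), Real.log (max 1 (FinitePlace.mk v x)))

/-- the conductor `cond(x)`: the sum of `log N(v) / [K : ℚ]` over the primes `v` at which `x` has a
positive valuation -/
noncomputable def cond {K : Type} [Field K] [NumberField K] (x : K) : ℝ :=
  (1 / (Module.finrank ℚ K : ℝ)) *
    (∑ᶠ v : HeightOneSpectrum (RingOfIntegers K),
      (if FinitePlace.mk v x < 1 then Real.log (Ideal.absNorm v.asIdeal : ℝ) else 0))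

/-- **Weak approximation with prescribed conductors.** Let `K` be a number field,
`a, b, c ∈ (0, 1]`, `a + b + c > 1`, `τ < a, b, c` and `2 τ < a + b + c - 1`. For every point `ξ` of
the product of the completions of `K` at the infinite places, all `y ∈ K` and `N ≥ 1` and every `B`
there is `x ∈ K`, `x ≠ 0, 1`, with `h(x) ≥ B`, `|x - ξ|_w ≤ exp (- τ h(x))` for all infinite places
`w`, `|x - y|_v ≤ |N|_v` for all primes `v` dividing `N`, and `cond(x) ≤ a h(x)`,
`cond(1/x) ≤ b h(x)`, `cond(x - 1) ≤ c h(x)`. -/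
theorem result : ∀ (K : Type) [Field K] [NumberField K] (a b c τ : ℝ),
    0 < a → 0 < b → 0 < c → a ≤ 1 → b ≤ 1 → c ≤ 1 → 1 < a + b + c →
    τ < a → τ < b → τ < c → 2 * τ < a + b + c - 1 →
    ∀ (ξ : mixedEmbedding.mixedSpace K) (y : K) (N : ℕ) (B : ℝ), 0 < N →
      ∃ x : K, x ≠ 0 ∧ x ≠ 1 ∧ B ≤ height x ∧
        (∀ w : InfinitePlace K, mixedEmbedding.normAtPlace w (mixedEmbedding K x - ξ) ≤
          Real.exp (-τ * height x)) ∧
        (∀ v : HeightOneSpectrum (RingOfIntegers K), FinitePlace.mk v (N : K) < 1 →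
          FinitePlace.mk v (x - y) ≤ FinitePlace.mk v (N : K)) ∧
        cond x ≤ a * height x ∧ cond x⁻¹ ≤ b * height x ∧ cond (x - 1) ≤ c * height x := by
  intro K _ _ a b c τ ha hb hc ha1 hb1 hc1 hs hτa hτb hτc hτ ξ y N B hN
  have h3 : ∀ (P : Fin 3 → Prop), P 0 → P 1 → P 2 → ∀ i, P i := by
    intro P h0 h1 h2 i
    fin_cases i
    · exact h0
    · exact h1
    · exact h2
  have hsum : ∑ i, (![a, b, c] : Fin 3 → ℝ) i = a + b + c := by
    rw [Fin.sum_univ_three]
    rfl
  exact Pool.Agent.H34x.KF.main (K := K) ![a, b, c]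
    (h3 (fun i => 0 < (![a, b, c] : Fin 3 → ℝ) i) ha hb hc)
    (h3 (fun i => (![a, b, c] : Fin 3 → ℝ) i ≤ 1) ha1 hb1 hc1) (by rw [hsum]; exact hs)
    (τ := τ) (h3 (fun i => τ < (![a, b, c] : Fin 3 → ℝ) i) hτa hτb hτc)
    (by rw [hsum]; exact hτ) ξ y hN B

end Pool.Agent.Results.MP_f5a5f7_nt.WeakApproximation
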